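import Mathlib

/-! Squad TF (MP_589914_co, S08884). Definitions. Paper proof: team store, two_families_proof.md. -/

set_option autoImplicit false

namespace Pool.Agent.TF

/-- A probability law on a finite type. -/
structure Law (Ω : Type) [Fintype Ω] where
  p : Ω → ℝ
  nn : ∀ ω, 0 ≤ p ω
  one : ∑ ω, p ω = 1

namespace Law

variable {Ω : Type} [Fintype Ω] (P : Law Ω)

open Classical in
/-- probability that `X = s` -/
noncomputable def q {S : Type} (X : Ω → S) (s : S) : ℝ := ∑ ω, if X ω = s then P.p ω else 0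

/-- Shannon entropy (natural logarithm) of the random variable `X` (no finiteness of `S` needed) -/
noncomputable def H {S : Type} (X : Ω → S) : ℝ := -∑ ω, P.p ω * Real.log (P.q X (X ω))

/-- conditional entropy `H(X|Y)` -/
noncomputable def C {S T : Type} (X : Ω → S) (Y : Ω → T) : ℝ :=
  P.H (fun ω => (X ω, Y ω)) - P.H Y

/-- expectation -/
noncomputable def E (f : Ω → ℝ) : ℝ := ∑ ω, P.p ω * f ω

/-- `X` determines `Y` almost surely -/
def Det {S T : Type} (X : Ω → S) (Y : Ω → T) : Prop :=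
  ∀ ω ω', P.p ω ≠ 0 → P.p ω' ≠ 0 → X ω = X ω' → Y ω = Y ω'

end Law

/-- the random variables `X` (under `P`) and `X'` (under `P'`) have the same law -/
def SameLaw {Ω Ω' S : Type} [Fintype Ω] [Fintype Ω'] (P : Law Ω) (X : Ω → S)
    (P' : Law Ω') (X' : Ω' → S) : Prop :=
  ∀ s, P.q X s = P'.q X' s

/-- Abstract classes: `D k ⊆ G`, every `x ∈ D k` is `a k x - b k x`, and the `a`- and `b`-coordinates can be
mixed freely (so `D k` is the direct difference set `A k - B k`). -/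
structure Fam (G : Type) [AddCommGroup G] [Fintype G] [DecidableEq G] (n : ℕ) where
  D : Fin n → Finset G
  a : Fin n → G → G
  b : Fin n → G → G
  sub : ∀ k x, x ∈ D k → a k x - b k x = x
  mixD : ∀ k x y, x ∈ D k → y ∈ D k → a k x - b k y ∈ D k
  mixa : ∀ k x y, x ∈ D k → y ∈ D k → a k (a k x - b k y) = a k x
  mixb : ∀ k x y, x ∈ D k → y ∈ D k → b k (a k x - b k y) = b k y

namespace Fam

variable {G : Type} [AddCommGroup G] [Fintype G] [DecidableEq G] {n : ℕ} (F : Fam G n)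

/-- `lab true = a`, `lab false = b` -/
def lab (σ : Bool) (k : Fin n) (x : G) : G := if σ then F.a k x else F.b k x

/-- `w true k l x = a_k(x) + b_l(x)` (`= a_l(x) + b_k(x)` on `D k ∩ D l`);
`w false k l x = a_k(x) - a_l(x)` (`= b_k(x) - b_l(x)`) -/
def w (t : Bool) (k l : Fin n) (x : G) : G := if t then F.a k x + F.b l x else F.a k x - F.a l x

/-- size of the line through `x` : points of `D k ∩ D l` with the same `σ`-label for `k` and the same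
`τ`-label for `l`. (`p`-line: `cnt false false`, `q`-line: `cnt false true`, `r`-line: `cnt true false`,
`s`-line: `cnt true true`.) -/
def cnt (σ τ : Bool) (k l : Fin n) (x : G) : ℕ :=
  ((F.D k ∩ F.D l).filter (fun v => F.lab σ k v = F.lab σ k x ∧ F.lab τ l v = F.lab τ l x)).card

/-- The extraction property of a cube with opposite corners `x0`, `x` (for the classes `k`, `h`): with
`u = m_h(x,x0)`, `u' = m_h(x0,x)`. Given `x0`, both labels of `k` at `x` split exactly into a function of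
`a_h(x)` (through `u`) and a function of `b_h(x)` (through `u'`). -/
def Ext (k h : Fin n) (x0 x : G) : Prop :=
  F.a k x = F.a k (F.a h x - F.b h x0) + F.a k (F.a h x0 - F.b h x) - F.a k x0 ∧
  F.b k x = F.b k (F.a h x - F.b h x0) + F.b k (F.a h x0 - F.b h x) - F.b k x0 ∧
  F.a k (F.a h x - F.b h x0) = F.a k (F.a h (F.a k x - F.b k x0) - F.b h x0) ∧
  F.b k (F.a h x - F.b h x0) = F.b k (F.a h (F.a k x0 - F.b k x) - F.b h x0)

/-- labels of a partial assignment `τ` of the classes `c 0, …, c (R-1)` at the point `x` -/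
def labs {R : ℕ} (τ : Fin R → Option Bool) (c : Fin R → Fin n) (x : G) : Fin R → Option G :=
  fun i => (τ i).map (fun σ => F.lab σ (c i) x)

/-- `x, y` belong to `D h`, and `x, y, z = m_h(y,x), z' = m_h(x,y)` all belong to `D k` and have the same
`b_k` (that is, `k` is a member of the closed ball of `(x,y,h)`). -/
def Rel (x y : G) (h k : Fin n) : Prop :=
  x ∈ F.D h ∧ y ∈ F.D h ∧ x ∈ F.D k ∧ y ∈ F.D k ∧
  F.a h y - F.b h x ∈ F.D k ∧ F.a h x - F.b h y ∈ F.D k ∧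
  F.b k y = F.b k x ∧ F.b k (F.a h y - F.b h x) = F.b k x ∧ F.b k (F.a h x - F.b h y) = F.b k x

end Fam

/-- The base hypotheses, with slack `e`; `l = log |G|`. -/
structure Base {G : Type} [AddCommGroup G] [Fintype G] [DecidableEq G] {n : ℕ} (F : Fam G n)
    (l e : ℝ) : Prop where
  e0 : 0 ≤ e
  hN : Real.log (Fintype.card G) = l
  hn : Real.log n ≤ l / 2 + e
  hlab : ∀ σ k, Real.log (((F.D k).image (F.lab σ k)).card) ≤ l / 2 + e
  hW : ∀ t, ∑ k, ∑ j, (((F.D k ∩ F.D j).image (F.w t k j)).card : ℝ) ≤ n * Fintype.card G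

section
variable {G : Type} [AddCommGroup G] [Fintype G] [DecidableEq G] {n : ℕ}

/-- The profile of a random triple `(x,k,j)`, `x ∈ D k ∩ D j`, with slack `g`. -/
structure Prof (F : Fam G n) (l g : ℝ) {Ω : Type} [Fintype Ω] (P : Law Ω)
    (x : Ω → G) (k j : Ω → Fin n) : Prop where
  hx : l - g ≤ P.C x (fun ω => (k ω, j ω))
  labk_lo : ∀ σ, l / 2 - g ≤ P.C (fun ω => F.lab σ (k ω) (x ω)) (fun ω => (k ω, j ω))
  labk_hi : ∀ σ, P.C (fun ω => F.lab σ (k ω) (x ω)) (fun ω => (k ω, j ω)) ≤ l / 2 + g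
  labj_lo : ∀ σ, l / 2 - g ≤ P.C (fun ω => F.lab σ (j ω) (x ω)) (fun ω => (k ω, j ω))
  labj_hi : ∀ σ, P.C (fun ω => F.lab σ (j ω) (x ω)) (fun ω => (k ω, j ω)) ≤ l / 2 + g
  w_lo : ∀ t, l / 2 - g ≤ P.C (fun ω => F.w t (k ω) (j ω) (x ω)) (fun ω => (k ω, j ω))
  w_hi : ∀ t, P.C (fun ω => F.w t (k ω) (j ω) (x ω)) (fun ω => (k ω, j ω)) ≤ l / 2 + g
  pair : ∀ σ τ, P.C (fun ω => (F.lab σ (k ω) (x ω), F.lab τ (j ω) (x ω))) (fun ω => (k ω, j ω))
    ≤ 3 * l / 4 + g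
  cnt : ∀ σ τ, P.E (fun ω => Real.log (F.cnt σ τ (k ω) (j ω) (x ω))) ≤ l / 4 + g
  line : ∀ σ τ, P.C x (fun ω => ((F.lab σ (k ω) (x ω), F.lab τ (j ω) (x ω)), (k ω, j ω))) ≤ l / 4 + g
  jk : ∀ σ τ, P.C (fun ω => F.lab τ (j ω) (x ω)) (fun ω => (F.lab σ (k ω) (x ω), (k ω, j ω)))
    ≤ l / 4 + g
  kj : ∀ σ τ, P.C (fun ω => F.lab σ (k ω) (x ω)) (fun ω => (F.lab τ (j ω) (x ω), (k ω, j ω)))
    ≤ l / 4 + g
  wpair : ∀ σ τ, P.C (fun ω => (F.lab σ (k ω) (x ω), F.lab τ (j ω) (x ω)))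
    (fun ω => (F.w (xor σ τ) (k ω) (j ω) (x ω), (k ω, j ω))) ≤ l / 4 + g

/-- The hypotheses (t1)-(t4) of the cube lemma for the classes `k = kf (c ω)`, `j = jf (c ω)`; `T = H(x|c)`. -/
structure Tprof (F : Fam G n) (l f : ℝ) {Ω Cc : Type} [Fintype Ω] (P : Law Ω)
    (x : Ω → G) (c : Ω → Cc) (kf jf : Cc → Fin n) : Prop where
  f0 : 0 ≤ f
  supp : ∀ ω, P.p ω ≠ 0 → x ω ∈ F.D (kf (c ω)) ∧ x ω ∈ F.D (jf (c ω))
  t1 : P.C (fun ω => (F.b (kf (c ω)) (x ω), F.b (jf (c ω)) (x ω))) c ≤ 3 * l / 4 + f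
  t2 : P.C (fun ω => F.b (kf (c ω)) (x ω)) c ≤ l / 2 + f
  t2' : P.C (fun ω => F.a (jf (c ω)) (x ω)) (fun ω => (F.b (kf (c ω)) (x ω), c ω))
    ≤ P.C x c - 3 * l / 4 + f
  t3 : P.C (fun ω => (F.a (kf (c ω)) (x ω), F.b (jf (c ω)) (x ω))) c ≤ P.C x c - l / 4 + f
  t3' : P.C (fun ω => F.a (kf (c ω)) (x ω)) (fun ω => (F.b (jf (c ω)) (x ω), c ω))
    ≤ P.C x c - 3 * l / 4 + f
  t3'' : P.C (fun ω => (F.a (kf (c ω)) (x ω), F.b (jf (c ω)) (x ω)))
    (fun ω => (F.w true (kf (c ω)) (jf (c ω)) (x ω), c ω)) ≤ l / 4 + f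
  t4 : P.C (fun ω => (F.a (kf (c ω)) (x ω), F.a (jf (c ω)) (x ω))) c ≤ P.C x c - l / 4 + f
  t4' : P.C (fun ω => (F.a (kf (c ω)) (x ω), F.a (jf (c ω)) (x ω)))
    (fun ω => (F.w false (kf (c ω)) (jf (c ω)) (x ω), c ω)) ≤ P.C x c - 3 * l / 4 + f
  t4'' : P.C (fun ω => F.a (kf (c ω)) (x ω)) (fun ω => (F.a (jf (c ω)) (x ω), c ω)) ≤ l / 4 + f
  t4''' : P.C (fun ω => F.a (jf (c ω)) (x ω)) (fun ω => (F.a (kf (c ω)) (x ω), c ω)) ≤ l / 4 + f

/-- There is a random cube `(x0, x')` for the classes `kf, jf`, both corners distributed like `x`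
(jointly with `c`), with `I(x0 ; x' | c) ≤ g`. -/
def HasCubes (F : Fam G n) {Ω Cc : Type} [Fintype Ω] (P : Law Ω)
    (x : Ω → G) (c : Ω → Cc) (kf jf : Cc → Fin n) (g : ℝ) : Prop :=
  ∃ (Ω' : Type) (_ : Fintype Ω') (P' : Law Ω') (x0 x' : Ω' → G) (c' : Ω' → Cc),
    SameLaw P' (fun ω => (x0 ω, c' ω)) P (fun ω => (x ω, c ω)) ∧
    SameLaw P' (fun ω => (x' ω, c' ω)) P (fun ω => (x ω, c ω)) ∧
    (∀ ω, P'.p ω ≠ 0 → F.Ext (kf (c' ω)) (jf (c' ω)) (x0 ω) (x' ω)) ∧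
    2 * P.C x c - g ≤ P'.C (fun ω => (x0 ω, x' ω)) c'

/-- `R` classes `c 0, …, c (R-1)` and a point `x` in all `D`'s: every pair is near maximal, and `b_i(x)` is
nearly uniform given `a_i(x)` and all classes. -/
structure Thin (F : Fam G n) (l e f : ℝ) (R : ℕ) {Ω : Type} [Fintype Ω] (P : Law Ω)
    (x : Ω → G) (c : Ω → Fin R → Fin n) : Prop where
  base : Base F l e
  f0 : 0 ≤ f
  supp : ∀ ω, P.p ω ≠ 0 → ∀ i, x ω ∈ F.D (c ω i)
  pair : ∀ i j, i ≠ j → 2 * l - e ≤ P.H (fun ω => (x ω, (c ω i, c ω j)))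
  move : ∀ i, l / 2 - f ≤ P.C (fun ω => F.b (c ω i) (x ω)) (fun ω => (F.a (c ω i) (x ω), c ω))

/-- The law of `(x,y,h)` with `R` conditionally independent members `c 0, …, c (R-1)` of its closed ball. -/
structure Mem (F : Fam G n) (l e V κ : ℝ) (R : ℕ) {Ω : Type} [Fintype Ω] (P : Law Ω)
    (x y : Ω → G) (h : Ω → Fin n) (c : Ω → Fin R → Fin n) : Prop where
  base : Base F l e
  rel : ∀ ω, P.p ω ≠ 0 → ∀ i, F.Rel (x ω) (y ω) (h ω) (c ω i)
  hV : P.H (fun ω => (x ω, y ω, h ω)) = V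
  h1 : ∀ i, P.H (fun ω => ((x ω, y ω, h ω), c ω i)) = V + κ
  h2 : ∀ i j, i ≠ j → P.H (fun ω => ((x ω, y ω, h ω), (c ω i, c ω j))) = V + 2 * κ
  hR : P.H (fun ω => ((x ω, y ω, h ω), c ω)) = V + R * κ
  big : 11 * l / 4 - e ≤ V + 2 * κ

end

end Pool.Agent.TF
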