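import Pool.Agent.TF.Defs

/-! Squad TF (MP_589914_co, S08884): the statements. Paper proof with all constants: team store,
`two_families_proof.md`. Every statement is a `Prop`; the docstring is its proof. A row takes the rows it needs as
hypotheses, e.g. `theorem pro (L : Lib) (h : CntwStmt) ... : ProStmt`. -/

set_option autoImplicit false

open scoped Pointwise

namespace Pool.Agent.TF

/-! ## Library -/

/-- MON. If `X` determines `Y` on the support then `H(Y) ≤ H(X)`; entropy is nonnegative.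
Proof: `Det` gives `q_X(X ω) ≤ q_Y(Y ω)` for `p ω ≠ 0` (drop the `ω'` with `p ω' = 0`), and `p ω ≤ q_X(X ω) ≤ 1`. -/
def MonStmt : Prop :=
  (∀ (Ω S T : Type) [Fintype Ω] (P : Law Ω) (X : Ω → S) (Y : Ω → T), P.Det X Y → P.H Y ≤ P.H X) ∧
  (∀ (Ω S : Type) [Fintype Ω] (P : Law Ω) (X : Ω → S), 0 ≤ P.H X)

/-- SUB. Submodularity: `H(X|Y,Z) ≤ H(X|Z)`.
Proof: `log t ≤ t - 1` (or Jensen) with `t = q_XZ q_YZ / (q_XYZ q_Z)`; grouping `ω` by the value of `(X,Y,Z)`,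
`Σ_ω p ω * t ω ≤ Σ_z Σ_x Σ_y q(x,z) q(y,z) / q(z) ≤ 1` (sums over images of `X`, `Y`, `Z`). -/
def SubStmt : Prop :=
  ∀ (Ω S T U : Type) [Fintype Ω] (P : Law Ω) (X : Ω → S) (Y : Ω → T) (Z : Ω → U),
    P.C X (fun ω => (Y ω, Z ω)) ≤ P.C X Z

/-- GIB. Gibbs inequality. Proof: Jensen for `log`: `E log (g(X)/q_X(X)) ≤ log E (g(X)/q_X(X))`, and
`E (g(X)/q_X(X)) = Σ_{s : q_X(s) > 0} g(s) ≤ Σ_{s ∈ T} g(s)`. -/
def GibStmt : Prop :=
  ∀ (Ω S : Type) [Fintype Ω] (P : Law Ω) (X : Ω → S) (T : Finset S) (g : S → ℝ),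
    (∀ s ∈ T, 0 ≤ g s) → (∀ ω, P.p ω ≠ 0 → X ω ∈ T ∧ 0 < g (X ω)) →
    P.H X + P.E (fun ω => Real.log (g (X ω))) ≤ Real.log (∑ s ∈ T, g s)

/-- GIC. Conditional Gibbs inequality. Proof: apply GIB to the variable `(X,Y)`, the set of all
`(s,u)`, `u ∈ image Y` (of the support), `s ∈ T u`, and the weight `q_Y(u) * g u s / Σ_{s' ∈ T u} g u s'`
(total weight 1): `H(X,Y) + E log q_Y(Y) + E log g - E log Σ g ≤ 0`, and `E log q_Y(Y) = - H(Y)`. -/
def GicStmt : Prop :=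
  ∀ (Ω S U : Type) [Fintype Ω] (P : Law Ω) (X : Ω → S) (Y : Ω → U) (T : U → Finset S) (g : U → S → ℝ),
    (∀ u, ∀ s ∈ T u, 0 ≤ g u s) → (∀ ω, P.p ω ≠ 0 → X ω ∈ T (Y ω) ∧ 0 < g (Y ω) (X ω)) →
    P.C X Y + P.E (fun ω => Real.log (g (Y ω) (X ω)))
      ≤ P.E (fun ω => Real.log (∑ s ∈ T (Y ω), g (Y ω) s))

/-- SAM. Elementary facts on `SameLaw`: composition with a function, same entropies, same conditional entropies of
functions, same expectations, transfer of the support, first/second coordinates. -/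
def SamStmt : Prop :=
  (∀ (Ω Ω' S T : Type) [Fintype Ω] [Fintype Ω'] (P : Law Ω) (P' : Law Ω') (X : Ω → S) (X' : Ω' → S)
    (f : S → T), SameLaw P X P' X' → SameLaw P (fun ω => f (X ω)) P' (fun ω => f (X' ω))) ∧
  (∀ (Ω Ω' S : Type) [Fintype Ω] [Fintype Ω'] (P : Law Ω) (P' : Law Ω') (X : Ω → S) (X' : Ω' → S),
    SameLaw P X P' X' → P.H X = P'.H X') ∧
  (∀ (Ω Ω' S T U : Type) [Fintype Ω] [Fintype Ω'] (P : Law Ω) (P' : Law Ω') (X : Ω → S) (X' : Ω' → S)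
    (f : S → T) (g : S → U), SameLaw P X P' X' →
    P.C (fun ω => f (X ω)) (fun ω => g (X ω)) = P'.C (fun ω => f (X' ω)) (fun ω => g (X' ω))) ∧
  (∀ (Ω Ω' S : Type) [Fintype Ω] [Fintype Ω'] (P : Law Ω) (P' : Law Ω') (X : Ω → S) (X' : Ω' → S)
    (f : S → ℝ), SameLaw P X P' X' → P.E (fun ω => f (X ω)) = P'.E (fun ω => f (X' ω))) ∧
  (∀ (Ω Ω' S : Type) [Fintype Ω] [Fintype Ω'] (P : Law Ω) (P' : Law Ω') (X : Ω → S) (X' : Ω' → S),
    SameLaw P X P' X' → ∀ ω, P.p ω ≠ 0 → ∃ ω', P'.p ω' ≠ 0 ∧ X' ω' = X ω)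

/-- GL2. Conditionally independent coupling over a common variable: `P.p (ω1,ω2) = P1.p ω1 * P2.p ω2 / q(X1 ω1)` if
`X1 ω1 = X2 ω2`, else `0`. The last clause (conditional independence of functions) follows from the entropy of
`id` and submodularity, or directly. -/
def Gl2Stmt : Prop :=
  ∀ (Ω1 Ω2 S : Type) [Fintype Ω1] [Fintype Ω2] (P1 : Law Ω1) (P2 : Law Ω2) (X1 : Ω1 → S) (X2 : Ω2 → S),
    SameLaw P1 X1 P2 X2 → ∃ P : Law (Ω1 × Ω2),
      SameLaw P (fun ω => ω.1) P1 (fun ω => ω) ∧ SameLaw P (fun ω => ω.2) P2 (fun ω => ω) ∧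
      (∀ ω, P.p ω ≠ 0 → P1.p ω.1 ≠ 0 ∧ P2.p ω.2 ≠ 0 ∧ X1 ω.1 = X2 ω.2) ∧
      P.H (fun ω => ω) = P1.H (fun ω => ω) + P2.H (fun ω => ω) - P1.H X1 ∧
      (∀ (A B : Type) (f : Ω1 → A) (g : Ω2 → B),
        P.C (fun ω => (f ω.1, g ω.2)) (fun ω => X1 ω.1) = P1.C f X1 + P2.C g X2)

/-- EXT. `m` conditionally independent copies `κ 0, …, κ (m-1)` of `K` given `Y`, on an extension of the
probability space (`π` is the projection). Induction on `m` with GL2. -/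
def ExtStmt : Prop :=
  ∀ (Ω S T : Type) [Fintype Ω] (P : Law Ω) (Y : Ω → T) (K : Ω → S) (m : ℕ),
    ∃ (Ω' : Type) (_ : Fintype Ω') (P' : Law Ω') (π : Ω' → Ω) (κ : Ω' → Fin m → S),
      SameLaw P' π P (fun ω => ω) ∧ (∀ ω, P'.p ω ≠ 0 → P.p (π ω) ≠ 0) ∧
      (∀ i, SameLaw P' (fun ω => (Y (π ω), κ ω i)) P (fun ω => (Y ω, K ω))) ∧
      P'.H (fun ω => (π ω, κ ω)) = P.H (fun ω => ω) + m * P.C K Y

/-- UNI. The uniform law on a nonempty set. -/
def UniStmt : Prop :=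
  ∀ (Ω : Type) [Fintype Ω] (T : Finset Ω), T.Nonempty →
    ∃ P : Law Ω, (∀ ω, P.p ω ≠ 0 → ω ∈ T) ∧ P.H (fun ω => ω) = Real.log T.card

/-- The library. -/
structure Lib : Prop where
  mon : MonStmt
  sub : SubStmt
  gib : GibStmt
  gic : GicStmt
  sam : SamStmt
  gl2 : Gl2Stmt
  ext : ExtStmt
  uni : UniStmt

/-! ## Combinatorics of two classes (no entropy) -/

/-- AL1. (i) the two expressions of `w`; (ii) two points with the same `w true` can be mixed: `u = a_k(x) - b_k(y)` has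
labels `a_k(x), b_k(y), a_j(y), b_j(x)`; (iii) two points with the same `w false`: `u = a_k(x) - b_k(y)` has labels
`a_k(x), a_j(x), b_k(y), b_j(y)`; (iv) `(w true, w false)` is injective on `D k ∩ D j`.
Proof: (i) from `x = a_k - b_k = a_j - b_j`. (ii) `a_k(x) - b_k(y) = a_j(y) - b_j(x)` iff `w true x = w true y`; use mix for
`k` and for `j`. (iii) `a_k(x) - b_k(y) = a_j(x) - b_j(y)`. (iv) equal `w`'s give `a_j(x) + b_j(x) = a_j(y) + b_j(y)`
(all four differences agree up to sign), so `a_j(x) - b_j(y) = a_j(y) - b_j(x)`; mix for `j` gives `a_j(x) = a_j(y)`. -/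
def Al1Stmt : Prop :=
  ∀ (G : Type) [AddCommGroup G] [Fintype G] [DecidableEq G] (n : ℕ) (F : Fam G n) (k j : Fin n),
    (∀ x ∈ F.D k ∩ F.D j, F.a k x + F.b j x = F.a j x + F.b k x ∧ F.a k x - F.a j x = F.b k x - F.b j x) ∧
    (∀ x ∈ F.D k ∩ F.D j, ∀ y ∈ F.D k ∩ F.D j, F.w true k j x = F.w true k j y →
      F.a k x - F.b k y ∈ F.D k ∩ F.D j ∧ F.a k (F.a k x - F.b k y) = F.a k x ∧
      F.b k (F.a k x - F.b k y) = F.b k y ∧ F.a j (F.a k x - F.b k y) = F.a j y ∧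
      F.b j (F.a k x - F.b k y) = F.b j x) ∧
    (∀ x ∈ F.D k ∩ F.D j, ∀ y ∈ F.D k ∩ F.D j, F.w false k j x = F.w false k j y →
      F.a k x - F.b k y ∈ F.D k ∩ F.D j ∧ F.a k (F.a k x - F.b k y) = F.a k x ∧
      F.b k (F.a k x - F.b k y) = F.b k y ∧ F.a j (F.a k x - F.b k y) = F.a j x ∧
      F.b j (F.a k x - F.b k y) = F.b j y) ∧
    (∀ x ∈ F.D k ∩ F.D j, ∀ y ∈ F.D k ∩ F.D j, F.w true k j x = F.w true k j y →
      F.w false k j x = F.w false k j y → x = y)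

/-- CNW. `Σ 1/(C_q C_r) = |W|` (`t = true`), `Σ 1/(C_p C_s) = |W'|` (`t = false`).
Proof: the fibre of `w t` through `x` has exactly `cnt false t * cnt true (!t)` points: by AL1 (ii)/(iii) the map
(line `(false,t)` through `x`) × (line `(true,!t)` through `x`) → fibre is a bijection (points of the first line keep
`b_k` and the `t`-label of `j`, points of the second keep `a_k` and the `!t`-label of `j`; on both `w t` is constant).
And `cnt` is constant on lines, hence the product is constant on the fibre. -/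
def CnwStmt : Prop :=
  ∀ (G : Type) [AddCommGroup G] [Fintype G] [DecidableEq G] (n : ℕ) (F : Fam G n) (k j : Fin n) (t : Bool),
    ∑ x ∈ F.D k ∩ F.D j, (1 : ℝ) / ((F.cnt false t k j x : ℝ) * (F.cnt true (!t) k j x : ℝ))
      ≤ (((F.D k ∩ F.D j).image (F.w t k j)).card : ℝ)

/-- CNS. `Σ_x C_(σ,τ)(x) C_(σ,!τ)(x) ≤ |G| * |(!σ)-labels of k|`, and the same with the roles of `k`, `j` exchanged.
Proof: the sum is over `(y,x)`, `x` in the `(σ,τ)`-line of `y`, of `C_(σ,!τ)(x)`; the `(σ,!τ)`-lines of the different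
`x` of the line of `y` are disjoint (different `!τ`-labels of `j`, else equal points by `sub`), all contained in
`{v ∈ D k : lab σ k v = lab σ k y}`, which injects by `lab (!σ) k` into the image. -/
def CnsStmt : Prop :=
  ∀ (G : Type) [AddCommGroup G] [Fintype G] [DecidableEq G] (n : ℕ) (F : Fam G n) (k j : Fin n) (σ τ : Bool),
    (∑ x ∈ F.D k ∩ F.D j, (F.cnt σ τ k j x : ℝ) * (F.cnt σ (!τ) k j x : ℝ)
      ≤ (Fintype.card G : ℝ) * (((F.D k).image (F.lab (!σ) k)).card : ℝ)) ∧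
    (∑ x ∈ F.D k ∩ F.D j, (F.cnt σ τ k j x : ℝ) * (F.cnt (!σ) τ k j x : ℝ)
      ≤ (Fintype.card G : ℝ) * (((F.D j).image (F.lab (!τ) j)).card : ℝ))

/-- CNQ. `Σ_x C_p(x)^2 ≤ |a_k-labels| |a_j-labels| |W|`.
Proof: on a `p`-line `L` of size `Z`: `Σ_L C_q ≤ |a_k-labels|` (the `q`-lines of the points of `L` are disjoint and
inside one `b_k`-cell), `Σ_L C_r ≤ |a_j-labels|`; Hoelder (or Cauchy twice) `Z^3 ≤ (Σ_L 1/(C_q C_r)) (Σ_L C_q) (Σ_L C_r)`;
sum over the lines (`Σ_x C_p(x)^2 = Σ_L Z^3`), CNW for `t = true`. -/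
def CnqStmt : Prop :=
  ∀ (G : Type) [AddCommGroup G] [Fintype G] [DecidableEq G] (n : ℕ) (F : Fam G n) (k j : Fin n),
    ∑ x ∈ F.D k ∩ F.D j, (F.cnt false false k j x : ℝ) ^ 2
      ≤ (((F.D k).image (F.lab true k)).card : ℝ) * (((F.D j).image (F.lab true j)).card : ℝ) *
        (((F.D k ∩ F.D j).image (F.w true k j)).card : ℝ)

/-- CAL. Algebra of cubes `v p q r s` (16 points of `D k ∩ D j`): `p`-edges keep `b_k, b_j`; `q`-edges keep `b_k, a_j`;
`r`-edges keep `a_k, b_j`; `s`-edges keep `a_k, a_j`. Then (1) every `v p q r s` is `v 0000` plus the sum of the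
corresponding edge vectors and the labels change additively (`a_k` by the `p`- and `q`-vectors, `a_j` by the `p`- and
`r`-vectors); (2) the extraction property `Ext` for the opposite corners; (3) a cube is determined by its two opposite
corners. Proof: section 3 of the paper proof. (`v_pq = m_k(x,x0)`, `v_pr = m_j(x,x0)`, `v_p = m_j(v_pq,x0)`,
`v_qs = m_j(x0,x)`, `v_rs = m_k(x0,x)`, `v_r = m_j(v_rs,x0)`; here `m_k(x,y) = a_k(x) - b_k(y)`.)
The same for 3-cubes (`s` absent) and 2-cubes is included with the first clause (take `v` constant in `s`, resp. `r,s`: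
this is NOT a cube; so the 2- and 3-dimensional versions of (1) are stated separately). -/
def CalStmt : Prop :=
  ∀ (G : Type) [AddCommGroup G] [Fintype G] [DecidableEq G] (n : ℕ) (F : Fam G n) (k j : Fin n),
    -- 2-faces
    (∀ v : Bool → Bool → G, (∀ p q, v p q ∈ F.D k ∩ F.D j) →
      (∀ q, F.b k (v true q) = F.b k (v false q) ∧ F.b j (v true q) = F.b j (v false q)) →
      (∀ p, F.b k (v p true) = F.b k (v p false) ∧ F.a j (v p true) = F.a j (v p false)) →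
      F.b j (v true true) = F.b j (v false true) ∧
      F.a k (v true true) = F.a k (v true false) + F.a k (v false true) - F.a k (v false false) ∧
      F.w true k j (v false true) = F.w true k j (v false false)) ∧
    -- 3-cubes
    (∀ v : Bool → Bool → Bool → G, (∀ p q r, v p q r ∈ F.D k ∩ F.D j) →
      (∀ q r, F.b k (v true q r) = F.b k (v false q r) ∧ F.b j (v true q r) = F.b j (v false q r)) →
      (∀ p r, F.b k (v p true r) = F.b k (v p false r) ∧ F.a j (v p true r) = F.a j (v p false r)) →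
      (∀ p q, F.a k (v p q true) = F.a k (v p q false) ∧ F.b j (v p q true) = F.b j (v p q false)) →
      (∀ p q r, F.a k (v p q r) = F.a k (v false false false)
          + (if p then F.a k (v true false false) - F.a k (v false false false) else 0)
          + (if q then F.a k (v false true false) - F.a k (v false false false) else 0) ∧
        F.a j (v p q r) = F.a j (v false false false)
          + (if p then F.a k (v true false false) - F.a k (v false false false) else 0)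
          + (if r then F.a j (v false false true) - F.a j (v false false false) else 0)) ∧
      F.w false k j (v true false false) = F.w false k j (v false false false)) ∧
    -- 4-cubes
    (∀ v : Bool → Bool → Bool → Bool → G, (∀ p q r s, v p q r s ∈ F.D k ∩ F.D j) →
      (∀ q r s, F.b k (v true q r s) = F.b k (v false q r s) ∧ F.b j (v true q r s) = F.b j (v false q r s)) →
      (∀ p r s, F.b k (v p true r s) = F.b k (v p false r s) ∧ F.a j (v p true r s) = F.a j (v p false r s)) →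
      (∀ p q s, F.a k (v p q true s) = F.a k (v p q false s) ∧ F.b j (v p q true s) = F.b j (v p q false s)) →
      (∀ p q r, F.a k (v p q r true) = F.a k (v p q r false) ∧ F.a j (v p q r true) = F.a j (v p q r false)) →
      F.Ext k j (v false false false false) (v true true true true)) ∧
    -- determined by the corners
    (∀ v v' : Bool → Bool → Bool → Bool → G, (∀ p q r s, v p q r s ∈ F.D k ∩ F.D j) →
      (∀ p q r s, v' p q r s ∈ F.D k ∩ F.D j) →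
      (∀ q r s, F.b k (v true q r s) = F.b k (v false q r s) ∧ F.b j (v true q r s) = F.b j (v false q r s)) →
      (∀ p r s, F.b k (v p true r s) = F.b k (v p false r s) ∧ F.a j (v p true r s) = F.a j (v p false r s)) →
      (∀ p q s, F.a k (v p q true s) = F.a k (v p q false s) ∧ F.b j (v p q true s) = F.b j (v p q false s)) →
      (∀ p q r, F.a k (v p q r true) = F.a k (v p q r false) ∧ F.a j (v p q r true) = F.a j (v p q r false)) →
      (∀ q r s, F.b k (v' true q r s) = F.b k (v' false q r s) ∧ F.b j (v' true q r s) = F.b j (v' false q r s)) →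
      (∀ p r s, F.b k (v' p true r s) = F.b k (v' p false r s) ∧ F.a j (v' p true r s) = F.a j (v' p false r s)) →
      (∀ p q s, F.a k (v' p q true s) = F.a k (v' p q false s) ∧ F.b j (v' p q true s) = F.b j (v' p q false s)) →
      (∀ p q r, F.a k (v' p q r true) = F.a k (v' p q r false) ∧ F.a j (v' p q r true) = F.a j (v' p q r false)) →
      v false false false false = v' false false false false →
      v true true true true = v' true true true true → v = v')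

/-! ## Profile of a near maximal pair -/

/-- PR1. First half of the profile: the averages of `log cnt`. Section 1 of the paper proof. -/
def Pr1Stmt : Prop :=
  ∀ (G : Type) [AddCommGroup G] [Fintype G] [DecidableEq G] (n : ℕ) (F : Fam G n) (l e : ℝ)
    (Ω : Type) [Fintype Ω] (P : Law Ω) (x : Ω → G) (k j : Ω → Fin n), Base F l e →
    (∀ ω, P.p ω ≠ 0 → x ω ∈ F.D (k ω) ∧ x ω ∈ F.D (j ω)) →
    2 * l - e ≤ P.H (fun ω => (x ω, (k ω, j ω))) →
    l - 3 * e ≤ P.C x (fun ω => (k ω, j ω)) ∧ l - e ≤ P.H (fun ω => (k ω, j ω)) ∧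
    (∀ t, P.C (fun ω => F.w t (k ω) (j ω) (x ω)) (fun ω => (k ω, j ω)) ≤ l / 2 + 2 * e) ∧
    (∀ σ τ, l / 4 - 12 * e ≤ P.E (fun ω => Real.log (F.cnt σ τ (k ω) (j ω) (x ω))) ∧
      P.E (fun ω => Real.log (F.cnt σ τ (k ω) (j ω) (x ω))) ≤ l / 4 + 12 * e)

/-- PR2. The full profile. `H(lab_k, lab_j | k,j) + E log cnt ≤ E log |D_kj| ≤ l` (GIC: the weights `cnt` summed over
the label pairs give `|D k ∩ D j|`); `H(x|labels) = H(x) - H(labels) ≥ ..`, `line`: `H(x | labels, k, j) ≤ E log cnt`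
(GIC with weight 1 on the line). The rest is arithmetic, see section 1 of the paper proof. Note that
`(lab σ k x, lab τ j x)` determines `w (xor σ τ) k j x` on `D k ∩ D j` (AL1 (i)), and `(w true, w false, k, j)`
determines `x` (AL1 (iv)), `(a_k, b_k, k)` determines `x`. -/
def Pr2Stmt : Prop :=
  ∀ (G : Type) [AddCommGroup G] [Fintype G] [DecidableEq G] (n : ℕ) (F : Fam G n) (l e : ℝ)
    (Ω : Type) [Fintype Ω] (P : Law Ω) (x : Ω → G) (k j : Ω → Fin n), Base F l e →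
    (∀ ω, P.p ω ≠ 0 → x ω ∈ F.D (k ω) ∧ x ω ∈ F.D (j ω)) →
    2 * l - e ≤ P.H (fun ω => (x ω, (k ω, j ω))) →
    Prof F l (20 * e) P x k j

/-- UPP. `p`-edges: `H(x,k,j) ≥ 2 H(x,y,k,j) - 5l/2 - 3e`. Section 2: with `K = H(k,j)`, `X = H(x|k,j)`,
`c = E log cnt false false`: `H(y|x,k,j) ≤ c` (GIC on the line), `X + 2c ≤ E log Σ_x cnt^2 ≤ (l + 2e) + E log |W_kj|` (GIC,
CNQ, `hlab`), `K + E log |W_kj| ≤ log (n N) ≤ 3l/2 + e` (GIB, `hW`). So `H(x,y,k,j) ≤ K + X + c ≤ (K+X)/2 + 5l/4 + 3e/2`.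
Second clause: `H(y|x,k,j) ≤ E log cnt`. -/
def UppStmt : Prop :=
  ∀ (G : Type) [AddCommGroup G] [Fintype G] [DecidableEq G] (n : ℕ) (F : Fam G n) (l e : ℝ)
    (Ω : Type) [Fintype Ω] (P : Law Ω) (x y : Ω → G) (k j : Ω → Fin n), Base F l e →
    (∀ ω, P.p ω ≠ 0 → x ω ∈ F.D (k ω) ∧ x ω ∈ F.D (j ω) ∧ y ω ∈ F.D (k ω) ∧ y ω ∈ F.D (j ω) ∧
      F.b (k ω) (y ω) = F.b (k ω) (x ω) ∧ F.b (j ω) (y ω) = F.b (j ω) (x ω)) →
    2 * P.H (fun ω => ((x ω, y ω), (k ω, j ω))) - 5 * l / 2 - 3 * e ≤ P.H (fun ω => (x ω, (k ω, j ω))) ∧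
    P.C y (fun ω => (x ω, (k ω, j ω))) ≤ P.E (fun ω => Real.log (F.cnt false false (k ω) (j ω) (x ω)))

/-! ## Cubes, glue -/

/-- CUB. The cube lemma, section 3: four conditionally independent doublings (GL2 with `X1 = X2` = (label, c)). -/
def CubStmt : Prop :=
  ∀ (G : Type) [AddCommGroup G] [Fintype G] [DecidableEq G] (n : ℕ) (F : Fam G n) (l f : ℝ)
    (Ω Cc : Type) [Fintype Ω] (P : Law Ω) (x : Ω → G) (c : Ω → Cc) (kf jf : Cc → Fin n),
    Tprof F l f P x c kf jf → HasCubes F P x c kf jf (30 * f)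

/-- GLU. Abstract glue lemma, section 4. `α`, `β` (functions of `(x,c)`) determine `x`; for every `i` there is a
coupling `(x0,x')` over `c` with `I(x0;x'|c) ≤ g`, relative to which the label `lam i` is equivalent to a pair
(function of `α`, function of `β`). Then `I(α;β | all lam i, c) ≤ I(α;β|c) + 2 m g`
(`I(α;β|Z)` is written `C α Z + C β Z - C x Z`).
Proof: glue the `m` couplings over `(x,c)` (GL2, induction): `X0 = (x0^i)_i`, `I(x;X0|c) ≤ m g` (conditional independence).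
`I(α;β|L,c) ≤ I(α;β,X0|L,c) = I(α;X0|L,c) + I(α;β|L,X0,c)`, first term `≤ I(x;X0|c)`; given `X0, c` the labels `L` are
equivalent to `(φ(α), ψ(β))`, so the second is `≤ I(α;β|X0,c) ≤ I(α;β|c) + I(x;X0|c)`. -/
def GluStmt : Prop :=
  ∀ (Ω X Cc A B S U V : Type) [Fintype Ω] (P : Law Ω) (x : Ω → X) (c : Ω → Cc)
    (α : X → Cc → A) (β : X → Cc → B) (m : ℕ) (lam : Fin m → X → Cc → S) (g : ℝ),
    (∀ ω ω', P.p ω ≠ 0 → P.p ω' ≠ 0 → c ω = c ω' → α (x ω) (c ω) = α (x ω') (c ω') →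
      β (x ω) (c ω) = β (x ω') (c ω') → x ω = x ω') →
    (∀ i, ∃ (Ω' : Type) (_ : Fintype Ω') (P' : Law Ω') (x0 x' : Ω' → X) (c' : Ω' → Cc)
        (φ : X → Cc → A → U) (ψ : X → Cc → B → V),
      SameLaw P' (fun ω => (x' ω, c' ω)) P (fun ω => (x ω, c ω)) ∧
      SameLaw P' (fun ω => (x0 ω, c' ω)) P (fun ω => (x ω, c ω)) ∧
      2 * P.C x c - g ≤ P'.C (fun ω => (x0 ω, x' ω)) c' ∧
      (∀ ω ω', P'.p ω ≠ 0 → P'.p ω' ≠ 0 → c' ω = c' ω' → x0 ω = x0 ω' →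
        (lam i (x' ω) (c' ω) = lam i (x' ω') (c' ω') ↔
          (φ (x0 ω) (c' ω) (α (x' ω) (c' ω)) = φ (x0 ω') (c' ω') (α (x' ω') (c' ω')) ∧
           ψ (x0 ω) (c' ω) (β (x' ω) (c' ω)) = ψ (x0 ω') (c' ω') (β (x' ω') (c' ω')))))) →
    P.C (fun ω => α (x ω) (c ω)) (fun ω => ((fun i => lam i (x ω) (c ω)), c ω)) +
      P.C (fun ω => β (x ω) (c ω)) (fun ω => ((fun i => lam i (x ω) (c ω)), c ω)) -
      P.C x (fun ω => ((fun i => lam i (x ω) (c ω)), c ω))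
    ≤ P.C (fun ω => α (x ω) (c ω)) c + P.C (fun ω => β (x ω) (c ω)) c - P.C x c + 2 * m * g

/-- THI. Section 5: a `Thin` law has the (t1)-(t4) profile for every pair of classes, with `f' = 3 f + 60 e`
(`Pr2Stmt` for `(x, c i, c j)`; conditioning on all of `c` keeps upper bounds). -/
def ThiStmt : Prop :=
  ∀ (G : Type) [AddCommGroup G] [Fintype G] [DecidableEq G] (n : ℕ) (F : Fam G n) (l e f : ℝ) (R : ℕ)
    (Ω : Type) [Fintype Ω] (P : Law Ω) (x : Ω → G) (c : Ω → Fin R → Fin n), Thin F l e f R P x c →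
    ∀ i j, i ≠ j → Tprof F l (3 * f + 60 * e) P x c (fun c => c i) (fun c => c j)

/-- MUL. All multi-compatibility (sections 4, 5): for a `Thin` law and a partial assignment `τ` with `τ j = none`,
`I(a_j ; b_j | labels τ, c) ≤ 4000 R (f + e)`. From THI, CUB, GLU (`A = B = U = V = G`, the classes `i` with `τ i ≠ none`;
for the others take a constant label and, e.g., the cubes of another class with constant `φ, ψ`, or enumerate only the
assigned classes), `Ext` gives the splitting; `I(a_j;b_j|c) ≤ e + f` since `H(b_j|c) ≤ l/2 + e`. -/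
def MulStmt : Prop :=
  ∀ (G : Type) [AddCommGroup G] [Fintype G] [DecidableEq G] (n : ℕ) (F : Fam G n) (l e f : ℝ) (R : ℕ)
    (Ω : Type) [Fintype Ω] (P : Law Ω) (x : Ω → G) (c : Ω → Fin R → Fin n), Thin F l e f R P x c →
    ∀ (τ : Fin R → Option Bool) (j : Fin R), τ j = none →
      P.C (fun ω => F.a (c ω j) (x ω)) (fun ω => (F.labs τ (c ω) (x ω), c ω)) +
      P.C (fun ω => F.b (c ω j) (x ω)) (fun ω => (F.labs τ (c ω) (x ω), c ω)) -
      P.C x (fun ω => (F.labs τ (c ω) (x ω), c ω)) ≤ 4000 * R * (f + e)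

/-! ## Boolean measure, Plotkin -/

/-- BOO. Section 6: additivity over the `2^R` atoms. `E(τ) = C x (labs τ, c)`;
`E(τ) - E(τ, j:a) - E(τ, j:b) = I(a_j;b_j|τ,c) ∈ [0,η]` when `τ j = none` (`x` is determined by `a_j, b_j, c`; SUB).
Induction on the number of unassigned classes. -/
def BooStmt : Prop :=
  ∀ (G : Type) [AddCommGroup G] [Fintype G] [DecidableEq G] (n : ℕ) (F : Fam G n) (η : ℝ) (R : ℕ)
    (Ω : Type) [Fintype Ω] (P : Law Ω) (x : Ω → G) (c : Ω → Fin R → Fin n), 0 ≤ η →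
    (∀ ω, P.p ω ≠ 0 → ∀ i, x ω ∈ F.D (c ω i)) →
    (∀ (τ : Fin R → Option Bool) (j : Fin R), τ j = none →
      P.C (fun ω => F.a (c ω j) (x ω)) (fun ω => (F.labs τ (c ω) (x ω), c ω)) +
      P.C (fun ω => F.b (c ω j) (x ω)) (fun ω => (F.labs τ (c ω) (x ω), c ω)) -
      P.C x (fun ω => (F.labs τ (c ω) (x ω), c ω)) ≤ η) →
    ∀ τ : Fin R → Option Bool,
      (∑ ε : Fin R → Bool, if (∀ i σ, τ i = some σ → ε i = σ) then
        P.C x (fun ω => (F.labs (fun i => some (ε i)) (c ω) (x ω), c ω)) else 0)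
        ≤ P.C x (fun ω => (F.labs τ (c ω) (x ω), c ω)) ∧
      P.C x (fun ω => (F.labs τ (c ω) (x ω), c ω)) ≤
      (∑ ε : Fin R → Bool, if (∀ i σ, τ i = some σ → ε i = σ) then
        P.C x (fun ω => (F.labs (fun i => some (ε i)) (c ω) (x ω), c ω)) else 0) + 2 ^ R * η

/-- PLN. Pure arithmetic for 6a: `μ ≥ 0` on `{0,1}^R` (`true = a`), with marginals `Σ_(ε i = a) μ ∈ [A - δ, A' ]`, pair
marginals `≤ B`: then `Σ_(ε ≠ all b) μ ≥ 4 ((R+1) R (A-δ) - R A' - R (R-1) B) / (R+1)^2`.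
Proof: `t = (R+1)/2`, `f = #a`: `t^2 ≥ 2 t f - f^2`. -/
def PlnStmt : Prop :=
  ∀ (R : ℕ) (μ : (Fin R → Bool) → ℝ) (A A' B δ : ℝ), 1 ≤ R → (∀ ε, 0 ≤ μ ε) →
    (∀ i, A - δ ≤ ∑ ε, if ε i = true then μ ε else 0) →
    (∀ i, (∑ ε, if ε i = true then μ ε else 0) ≤ A') →
    (∀ i j, i ≠ j → (∑ ε, if ε i = true ∧ ε j = true then μ ε else 0) ≤ B) →
    4 * ((R + 1) * R * (A - δ) - R * A' - R * (R - 1) * B) / ((R : ℝ) + 1) ^ 2
      ≤ ∑ ε, if ε = (fun _ => false) then 0 else μ ε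

/-- PLF. Pure arithmetic for 6b: `μ ≥ 0` on `{0,1}^5`, total `≤ L`, `Σ_(ε i ≠ ε j) μ ≥ B` for `i ≠ j`: then
`μ(all a) + μ(all b) ≤ L - 10 B / 6`. (At most 6 of the 10 pairs are unequal.) -/
def PlfStmt : Prop :=
  ∀ (μ : (Fin 5 → Bool) → ℝ) (L B : ℝ), (∀ ε, 0 ≤ μ ε) → (∑ ε, μ ε) ≤ L →
    (∀ i j, i ≠ j → B ≤ ∑ ε, if ε i ≠ ε j then μ ε else 0) →
    μ (fun _ => true) + μ (fun _ => false) ≤ L - 10 * B / 6

/-- PLA. 6a for a `Thin` law. `H(b_1..b_R | c) = T - μ(b..b) ≥ Σ_(ε ≠ b..b) μ(ε)`; BOO, MUL, PLN with `A = l/2 - f`,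
`A' = l/2 + e`, `B = l/4 + 20 e` (upper bound of `C x (a_i,a_j,c)` by `line` of the profile), `δ = 2^R η`, `η = 4000 R (f+e)`. -/
def PlaStmt : Prop :=
  ∀ (G : Type) [AddCommGroup G] [Fintype G] [DecidableEq G] (n : ℕ) (F : Fam G n) (l e f : ℝ) (R : ℕ)
    (Ω : Type) [Fintype Ω] (P : Law Ω) (x : Ω → G) (c : Ω → Fin R → Fin n), 1 ≤ R → Thin F l e f R P x c →
    l * R / (R + 1) - 2 ^ (R + 15) * R * (f + e) ≤ P.C (fun ω i => F.b (c ω i) (x ω)) c

/-- PLB. 6b for a `Thin` law with 5 classes (`T = C x c ≤ l`). PLF with `L = l`,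
`B = l/2 - 2 f - 40 e - 64 η`, `η = 20000 (f+e)`. -/
def PlbStmt : Prop :=
  ∀ (G : Type) [AddCommGroup G] [Fintype G] [DecidableEq G] (n : ℕ) (F : Fam G n) (l e f : ℝ)
    (Ω : Type) [Fintype Ω] (P : Law Ω) (x : Ω → G) (c : Ω → Fin 5 → Fin n), Thin F l e f 5 P x c →
    P.C x (fun ω => ((fun i => F.a (c ω i) (x ω)), c ω)) + P.C x (fun ω => ((fun i => F.b (c ω i) (x ω)), c ω))
      ≤ l / 6 + 2 ^ 22 * (f + e)

/-! ## The closed ball -/

/-- REC. Section 7, the closure law. `c = (k1,k2,h)`; `Thin F l (2e) (5e) 3` holds; `η = 84000 e`;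
`(x,z)` conditionally independent given `(b_h,b_1,b_2,c)`, then `(z',y)` a copy of `(x,z)` given
`(a_h of both, b_1, b_2, c)`. -/
def RecStmt : Prop :=
  ∀ (G : Type) [AddCommGroup G] [Fintype G] [DecidableEq G] (n : ℕ) (F : Fam G n) (l e : ℝ)
    (Ω : Type) [Fintype Ω] (P : Law Ω) (x : Ω → G) (c : Ω → Fin 3 → Fin n), Base F l e →
    (∀ ω, P.p ω ≠ 0 → ∀ i, x ω ∈ F.D (c ω i)) → 5 * l / 2 - e ≤ P.H (fun ω => (x ω, c ω)) →
    ∃ (Ω' : Type) (_ : Fintype Ω') (P' : Law Ω') (x' y' : Ω' → G) (h k1 k2 : Ω' → Fin n),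
      (∀ ω, P'.p ω ≠ 0 → F.Rel (x' ω) (y' ω) (h ω) (k1 ω) ∧ F.Rel (x' ω) (y' ω) (h ω) (k2 ω)) ∧
      11 * l / 4 - 200000 * e ≤ P'.H (fun ω => ((x' ω, y' ω, h ω), (k1 ω, k2 ω)))

/-- MEM. Section 8: from such a law, `R` conditionally independent members for every `R`, with the same law of
`(x,y,h)`, hence the same `V`, `κ`, and the same `C h (x,y,z)`, `z = m_h(y,x)`, which is written `l/2 - c0`.
(`κ` = the larger one of `C k1 (x,y,h)`, `C k2 (x,y,h)`; EXT over the variable `(x,y,h)`.) -/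
def MemStmt : Prop :=
  ∀ (G : Type) [AddCommGroup G] [Fintype G] [DecidableEq G] (n : ℕ) (F : Fam G n) (l e : ℝ)
    (Ω : Type) [Fintype Ω] (P : Law Ω) (x y : Ω → G) (h k1 k2 : Ω → Fin n), Base F l e →
    (∀ ω, P.p ω ≠ 0 → F.Rel (x ω) (y ω) (h ω) (k1 ω) ∧ F.Rel (x ω) (y ω) (h ω) (k2 ω)) →
    11 * l / 4 - e ≤ P.H (fun ω => ((x ω, y ω, h ω), (k1 ω, k2 ω))) →
    ∃ V κ c0 : ℝ, ∀ R : ℕ, ∃ (Ω' : Type) (_ : Fintype Ω') (P' : Law Ω') (x' y' : Ω' → G) (h' : Ω' → Fin n)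
      (c' : Ω' → Fin R → Fin n), Mem F l e V κ R P' x' y' h' c' ∧
      P'.C h' (fun ω => (x' ω, y' ω, F.a (h' ω) (y' ω) - F.b (h' ω) (x' ω))) = l / 2 - c0

/-- MOV. Section 8a. Constants: `(x, c i, c j)` has entropy `≥ 2l - 7e` (UPP), profile slack `140 e`;
`C (x,y) (c1,c2,h) ≥ 5l/4 - 4e`, `≤ 5l/4 + 140 e`; after the two doublings `≥ 7l/4 - 996 e`; hence
`C (al,al') (c1,c2,h) ≤ 3l/4 + 1276 e`, `H(c1,c2,h,al,al') ≤ 9l/4 + 1279 e`. -/
def MovStmt : Prop :=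
  ∀ (G : Type) [AddCommGroup G] [Fintype G] [DecidableEq G] (n : ℕ) (F : Fam G n) (l e V κ : ℝ) (R : ℕ)
    (Ω : Type) [Fintype Ω] (P : Law Ω) (x y : Ω → G) (h : Ω → Fin n) (c : Ω → Fin R → Fin n), 2 ≤ R →
    Mem F l e V κ R P x y h c → ∀ i,
      l / 2 - 2000 * R * e ≤ P.C (fun ω => F.b (c ω i) (x ω)) (fun ω => (F.a (c ω i) (x ω), c ω))

/-- MO1. The pair level of MOV (for two members `k1,k2` of the closed ball of `(x,y,h)`). -/
def Mo1Stmt : Prop :=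
  ∀ (G : Type) [AddCommGroup G] [Fintype G] [DecidableEq G] (n : ℕ) (F : Fam G n) (l e : ℝ)
    (Ω : Type) [Fintype Ω] (P : Law Ω) (x y : Ω → G) (h k1 k2 : Ω → Fin n), Base F l e →
    (∀ ω, P.p ω ≠ 0 → F.Rel (x ω) (y ω) (h ω) (k1 ω) ∧ F.Rel (x ω) (y ω) (h ω) (k2 ω)) →
    11 * l / 4 - e ≤ P.H (fun ω => ((x ω, y ω, h ω), (k1 ω, k2 ω))) →
    P.H (fun ω => ((k1 ω, k2 ω, h ω), (F.a (k1 ω) (x ω), F.a (k1 ω) (y ω)))) ≤ 9 * l / 4 + 1279 * e

/-- MTH. The members form a `Thin` law (MOV and UPP). -/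
def MthStmt : Prop :=
  ∀ (G : Type) [AddCommGroup G] [Fintype G] [DecidableEq G] (n : ℕ) (F : Fam G n) (l e V κ : ℝ) (R : ℕ)
    (Ω : Type) [Fintype Ω] (P : Law Ω) (x y : Ω → G) (h : Ω → Fin n) (c : Ω → Fin R → Fin n), 2 ≤ R →
    Mem F l e V κ R P x y h c → Thin F l (7 * e) (2000 * R * e) R P x c

/-- FRE. Section 8b: `h` stays nearly uniform given `x, y` and all members. -/
def FreStmt : Prop :=
  ∀ (G : Type) [AddCommGroup G] [Fintype G] [DecidableEq G] (n : ℕ) (F : Fam G n) (l e V κ : ℝ) (R : ℕ)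
    (Ω : Type) [Fintype Ω] (P : Law Ω) (x y : Ω → G) (h : Ω → Fin n) (c : Ω → Fin R → Fin n), 2 ≤ R →
    Mem F l e V κ R P x y h c → l / 2 - 5 * (R + 1) * e ≤ P.C h (fun ω => ((x ω, y ω), c ω))

/-- CZE. Section 9, non-concentration (`R = 2`): EXT with 4 copies of `h` given `(x,y,z)`. Constants in the paper
proof: `Thin F l (4 c0 + 146 e) (4 c0 + 149 e) 5`. -/
def CzeStmt : Prop :=
  ∀ (G : Type) [AddCommGroup G] [Fintype G] [DecidableEq G] (n : ℕ) (F : Fam G n) (l e V κ c0 : ℝ)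
    (Ω : Type) [Fintype Ω] (P : Law Ω) (x y : Ω → G) (h : Ω → Fin n) (c : Ω → Fin 2 → Fin n),
    Mem F l e V κ 2 P x y h c →
    P.C h (fun ω => (x ω, y ω, F.a (h ω) (y ω) - F.b (h ω) (x ω))) = l / 2 - c0 →
    l ≤ 2 ^ 30 * c0 + 2 ^ 36 * e

/-- FIN. Section 10: `z` has `b_i(z) = b_i(x)` for all members:
`l ≥ C z c ≥ C (b_i(x))_i c + C z ((x,y),c)`, and `C z ((x,y),c) ≥ C h ((x,y),c) - C h (x,y,z)`. -/
def FinStmt : Prop :=
  ∀ (G : Type) [AddCommGroup G] [Fintype G] [DecidableEq G] (n : ℕ) (F : Fam G n) (l e V κ c0 : ℝ) (R : ℕ)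
    (Ω : Type) [Fintype Ω] (P : Law Ω) (x y : Ω → G) (h : Ω → Fin n) (c : Ω → Fin R → Fin n), 2 ≤ R →
    Mem F l e V κ R P x y h c →
    P.C h (fun ω => (x ω, y ω, F.a (h ω) (y ω) - F.b (h ω) (x ω))) = l / 2 - c0 →
    c0 ≤ l / (R + 1) + 2 ^ (R + 27) * (R : ℝ) ^ 2 * e

/-- MAI. The main inequality (REC, MEM, CZE, FIN with `R + 1 = 2^31`; keep `R` opaque, do not evaluate
`2 ^ (R + 27)`). -/
def MaiStmt : Prop :=
  ∃ K : ℝ, 0 < K ∧ ∀ (G : Type) [AddCommGroup G] [Fintype G] [DecidableEq G] (n : ℕ) (F : Fam G n) (l e : ℝ)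
    (Ω : Type) [Fintype Ω] (P : Law Ω) (x : Ω → G) (c : Ω → Fin 3 → Fin n), Base F l e →
    (∀ ω, P.p ω ≠ 0 → ∀ i, x ω ∈ F.D (c ω i)) → 5 * l / 2 - e ≤ P.H (fun ω => (x ω, c ω)) →
    l ≤ K * e

/-! ## From SDPP families to the base hypotheses -/

/-- STA. A near optimal SDPP family gives a `Fam` satisfying `Base` and a generic law, with `e = 10 ε l + 10`.
Keep the `n' ≥ n/2` indices `i` with `|A_i|, |B_i| ≤ 4N/n` (the `A_i` are pairwise disjoint, the `B_i` too: `j = k` resp.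
`j = i` in the disjointness); `D = A - B`; `W_kj ⊆ (A_k + B_j) ∩ (A_j + B_k)`, disjoint in `j`;
`W'_kj ⊆ (A_k - A_j) ∩ (B_k - B_j)`, disjoint in `j`. Law: uniform on `{(x,κ) : x ∈ ∩ D(κ i)}`, of size
`Σ_x deg(x)^3 ≥ (Σ_k |D k|)^3 / N^2` (power mean). -/
def StaStmt : Prop :=
  ∀ (ε : ℝ) (n : ℕ), 0 < ε → ε ≤ 1 / 2 → 2 ≤ n →
    ∀ (H : Type) [AddCommGroup H] [Fintype H] [DecidableEq H] (A B : Fin n → Set H),
      (n : ℝ) ^ (2 - ε) ≤ (Fintype.card H : ℝ) →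
      (Fintype.card H : ℝ) ≤ (n : ℝ) ^ (2 + ε) →
      (∀ i : Fin n,
        (n : ℝ) ^ (2 - ε) ≤ ((A i).ncard : ℝ) * ((B i).ncard : ℝ) ∧
        (A i + B i).ncard = (A i).ncard * (B i).ncard) →
      (∀ i j k : Fin n, i ≠ k → Disjoint (A i + B j) (A j + B k)) →
      ∃ (n' : ℕ) (F : Fam H n') (Ω : Type) (_ : Fintype Ω) (P : Law Ω) (x : Ω → H) (c : Ω → Fin 3 → Fin n'),
        Base F (Real.log (Fintype.card H)) (10 * ε * Real.log (Fintype.card H) + 10) ∧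
        (∀ ω, P.p ω ≠ 0 → ∀ i, x ω ∈ F.D (c ω i)) ∧
        5 * Real.log (Fintype.card H) / 2 - (10 * ε * Real.log (Fintype.card H) + 10)
          ≤ P.H (fun ω => (x ω, c ω))

/-- ASY. The frozen statement S08884 (its body), from MAI and STA: `ε = 1/(40 K + 2)`, `n` large. -/
def AsyStmt : Prop :=
  ¬ (∀ ε : ℝ, 0 < ε → ∀ N : ℕ, ∃ n : ℕ, N ≤ n ∧
      ∃ (H : Type) (_ : AddCommGroup H) (_ : Fintype H) (A B : Fin n → Set H),
        (n : ℝ) ^ (2 - ε) ≤ (Fintype.card H : ℝ) ∧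
        (Fintype.card H : ℝ) ≤ (n : ℝ) ^ (2 + ε) ∧
        (∀ i : Fin n,
          (n : ℝ) ^ (2 - ε) ≤ ((A i).ncard : ℝ) * ((B i).ncard : ℝ) ∧
          (A i + B i).ncard = (A i).ncard * (B i).ncard) ∧
        (∀ i j k : Fin n, i ≠ k → Disjoint (A i + B j) (A j + B k)))

end Pool.Agent.TF
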